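import Mathlib

set_option autoImplicit false

namespace Pool.Agent.Results.MP_776ebc_al.NeverNilpotent

/-- The first free generator `X` of the free associative algebra `K⟨X,Y⟩`. -/
noncomputable def gX (K : Type) [Field K] : FreeAlgebra K (Fin 2) := FreeAlgebra.ι K 0

/-- The second free generator `Y` of the free associative algebra `K⟨X,Y⟩`. -/
noncomputable def gY (K : Type) [Field K] : FreeAlgebra K (Fin 2) := FreeAlgebra.ι K 1

/-- Membership in `L₀`, the Lie subalgebra of `K⟨X,Y⟩` generated by `X` and `Y`: the least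
`K`-linear subspace which contains `X` and `Y` and is closed under `[S,T] = ST - TS`. -/
inductive MemL0 (K : Type) [Field K] : FreeAlgebra K (Fin 2) → Prop
  | genX : MemL0 K (gX K)
  | genY : MemL0 K (gY K)
  | add {S T : FreeAlgebra K (Fin 2)} : MemL0 K S → MemL0 K T → MemL0 K (S + T)
  | smul (c : K) {S : FreeAlgebra K (Fin 2)} : MemL0 K S → MemL0 K (c • S)
  | lie {S T : FreeAlgebra K (Fin 2)} : MemL0 K S → MemL0 K T → MemL0 K (S * T - T * S)

/-- `I`: the two-sided ideal generated by all `U ^ n` with `U ∈ L₀`. -/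
noncomputable def I (K : Type) [Field K] (n : ℕ) : TwoSidedIdeal (FreeAlgebra K (Fin 2)) :=
  TwoSidedIdeal.span {a | ∃ U, MemL0 K U ∧ a = U ^ n}

/-- A ring model: `z = xy - yx` commutes with `x` and `y`, all combinations of `x,y,z` have
vanishing `n`-th power, and `x^(n-1) y^(n-1)` is not zero. -/
structure Model (K : Type) [Field K] (n : ℕ) (R : Type) [Ring R] [Algebra K R] (x y : R) :
    Prop where
  cx : x * (x * y - y * x) = (x * y - y * x) * x
  cy : y * (x * y - y * x) = (x * y - y * x) * y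
  pow : ∀ a b c : K, (a • x + b • y + c • (x * y - y * x)) ^ n = 0
  ne : x ^ (n - 1) * y ^ (n - 1) ≠ 0

/-- First generator of the exterior algebra on two letters, acting by left multiplication. -/
def E1 (R : Type) [Ring R] : Matrix (Fin 4) (Fin 4) R :=
  !![0, 0, 0, 0; 1, 0, 0, 0; 0, 0, 0, 0; 0, 0, 1, 0]

/-- Second generator of the exterior algebra on two letters, acting by left multiplication. -/
def E2 (R : Type) [Ring R] : Matrix (Fin 4) (Fin 4) R :=
  !![0, 0, 0, 0; 0, 0, 0, 0; 1, 0, 0, 0; 0, -1, 0, 0]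

/-- Their product. -/
def E12 (R : Type) [Ring R] : Matrix (Fin 4) (Fin 4) R :=
  !![0, 0, 0, 0; 0, 0, 0, 0; 0, 0, 0, 0; 1, 0, 0, 0]

theorem E1_E1 (R : Type) [Ring R] : E1 R * E1 R = 0 := by
  ext i j; fin_cases i <;> fin_cases j <;> simp [E1, Matrix.mul_apply, Fin.sum_univ_four]

theorem E2_E2 (R : Type) [Ring R] : E2 R * E2 R = 0 := by
  ext i j; fin_cases i <;> fin_cases j <;> simp [E2, Matrix.mul_apply, Fin.sum_univ_four]

theorem E1_E2 (R : Type) [Ring R] : E1 R * E2 R = E12 R := by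
  ext i j; fin_cases i <;> fin_cases j <;> simp [E1, E2, E12, Matrix.mul_apply, Fin.sum_univ_four]

theorem E2_E1 (R : Type) [Ring R] : E2 R * E1 R = - E12 R := by
  ext i j; fin_cases i <;> fin_cases j <;> simp [E1, E2, E12, Matrix.mul_apply, Fin.sum_univ_four]

theorem comm1 (R : Type) [Ring R] (r : R) :
    Matrix.scalar (Fin 4) r * E1 R = E1 R * Matrix.scalar (Fin 4) r := by
  ext i j; fin_cases i <;> fin_cases j <;> simp [E1, Matrix.mul_apply, Fin.sum_univ_four]

theorem comm2 (R : Type) [Ring R] (r : R) :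
    Matrix.scalar (Fin 4) r * E2 R = E2 R * Matrix.scalar (Fin 4) r := by
  ext i j; fin_cases i <;> fin_cases j <;> simp [E2, Matrix.mul_apply, Fin.sum_univ_four]

theorem comm12 (R : Type) [Ring R] (r : R) :
    Matrix.scalar (Fin 4) r * E12 R = E12 R * Matrix.scalar (Fin 4) r := by
  rw [← E1_E2, ← mul_assoc, comm1, mul_assoc, comm2, ← mul_assoc]

theorem E1_E12 (R : Type) [Ring R] : E1 R * E12 R = 0 := by
  rw [← E1_E2, ← mul_assoc, E1_E1, zero_mul]

theorem E12_E2 (R : Type) [Ring R] : E12 R * E2 R = 0 := by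
  rw [← E1_E2, mul_assoc, E2_E2, mul_zero]

theorem E2_E12 (R : Type) [Ring R] : E2 R * E12 R = 0 := by
  have h : E2 R * (E2 R * E1 R) = 0 := by rw [← mul_assoc, E2_E2, zero_mul]
  rw [E2_E1, mul_neg] at h
  exact neg_eq_zero.mp h

theorem E12_E1 (R : Type) [Ring R] : E12 R * E1 R = 0 := by
  have h : (E2 R * E1 R) * E1 R = 0 := by rw [mul_assoc, E1_E1, mul_zero]
  rw [E2_E1, neg_mul] at h
  exact neg_eq_zero.mp h

theorem E12_E12 (R : Type) [Ring R] : E12 R * E12 R = 0 := by
  nth_rewrite 1 [← E1_E2]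
  rw [mul_assoc, E2_E12, mul_zero]

theorem pow_add_sq_zero {A : Type} [Ring A] {s e : A} (hc : s * e = e * s) (he : e * e = 0)
    (m : ℕ) : (s + e) ^ (m + 1) = s ^ (m + 1) + (m + 1) • (s ^ m * e) := by
  induction m with
  | zero => simp
  | succ m ih =>
    rw [pow_succ, ih, add_mul, mul_add, mul_add, smul_mul_assoc, smul_mul_assoc, mul_assoc (s ^ m) e s,
      ← hc, ← mul_assoc (s ^ m) s e, ← pow_succ, mul_assoc (s ^ m) e e, he, mul_zero, smul_zero,
      add_zero, ← pow_succ, add_assoc, succ_nsmul' _ (m + 1)]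

theorem step {K : Type} [Field K] {n : ℕ} (hn : (n : K) ≠ 0) {R : Type} [Ring R] [Algebra K R]
    {x y : R} (h : Model K n R x y) :
    Model K (n + 1) (Matrix (Fin 4) (Fin 4) R)
      (Matrix.scalar (Fin 4) x + E1 R) (Matrix.scalar (Fin 4) y + E2 R) := by
  have hn0 : n ≠ 0 := by rintro rfl; simp at hn
  obtain ⟨m, rfl⟩ := Nat.exists_eq_succ_of_ne_zero hn0
  set σ := Matrix.scalar (Fin 4) (α := R) with hσ
  have hz : (σ x + E1 R) * (σ y + E2 R) - (σ y + E2 R) * (σ x + E1 R)
      = σ (x * y - y * x) + (E12 R + E12 R) := by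
    rw [map_sub, map_mul, map_mul, add_mul, add_mul, mul_add, mul_add, mul_add, mul_add, E1_E2,
      E2_E1, comm1 R y, comm2 R x]
    abel
  have hxp : x ^ (m + 1) = 0 := by simpa using h.pow 1 0 0
  have hyp : y ^ (m + 1) = 0 := by simpa using h.pow 0 1 0
  have hcx : σ x * σ (x * y - y * x) = σ (x * y - y * x) * σ x := by
    rw [← map_mul, h.cx, map_mul]
  have hcy : σ y * σ (x * y - y * x) = σ (x * y - y * x) * σ y := by
    rw [← map_mul, h.cy, map_mul]
  have hs1 : ∀ r, σ r * E1 R = E1 R * σ r := comm1 R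
  have hs2 : ∀ r, σ r * E2 R = E2 R * σ r := comm2 R
  have hs12 : ∀ r, σ r * E12 R = E12 R * σ r := comm12 R
  refine ⟨?_, ?_, ?_, ?_⟩
  · rw [hz]
    simp only [mul_add, add_mul, hcx, hs12, hs1, E1_E12, E12_E1, add_zero]
    abel
  · rw [hz]
    simp only [mul_add, add_mul, hcy, hs12, hs2, E2_E12, E12_E2, add_zero]
    abel
  · intro a b c
    rw [hz]
    have hsm : ∀ (k : K) (r : R), σ (k • r) = k • σ r := by
      intro k r
      ext i j
      simp [σ, Matrix.scalar_apply, Matrix.diagonal_apply, Matrix.smul_apply]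
    have e1 : a • (σ x + E1 R) + b • (σ y + E2 R) + c • (σ (x * y - y * x) + (E12 R + E12 R))
        = σ (a • x + b • y + c • (x * y - y * x)) +
          (a • E1 R + b • E2 R + c • (E12 R + E12 R)) := by
      rw [map_add, map_add, hsm, hsm, hsm, smul_add, smul_add, smul_add]
      abel
    rw [e1, pow_add_sq_zero, ← map_pow, ← map_pow, h.pow, pow_succ, h.pow]
    · simp
    · simp only [mul_add, add_mul, mul_smul_comm, smul_mul_assoc, hs1, hs2, hs12]
    · simp only [mul_add, add_mul, mul_smul_comm, smul_mul_assoc, E1_E1, E2_E2, E1_E2, E2_E1,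
        E1_E12, E2_E12, E12_E1, E12_E2, E12_E12, smul_zero, add_zero, zero_add, smul_neg]
      rw [smul_comm]
      abel
  · have f1 : (σ x + E1 R) ^ (m + 1) = (m + 1) • (σ (x ^ m) * E1 R) := by
      rw [pow_add_sq_zero (hs1 x) (E1_E1 R), ← map_pow, hxp, map_zero, zero_add, ← map_pow]
    have f2 : (σ y + E2 R) ^ (m + 1) = (m + 1) • (σ (y ^ m) * E2 R) := by
      rw [pow_add_sq_zero (hs2 y) (E2_E2 R), ← map_pow, hyp, map_zero, zero_add, ← map_pow]
    have f3 : (σ x + E1 R) ^ (m + 1) * (σ y + E2 R) ^ (m + 1)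
        = ((m + 1) * (m + 1)) • (σ (x ^ m * y ^ m) * E12 R) := by
      rw [f1, f2, smul_mul_smul_comm, map_mul]
      congr 1
      rw [← E1_E2, mul_assoc, ← mul_assoc (E1 R), ← hs1, mul_assoc, mul_assoc]
    intro h0
    have h1 : (m.succ + 1 - 1) = m + 1 := by omega
    rw [h1, f3] at h0
    have h2 := congrFun (congrFun h0 3) 0
    have h3 : ((m + 1) * (m + 1)) • (x ^ m * y ^ m) = 0 := by
      simpa [σ, Matrix.scalar_apply, Matrix.smul_apply, Matrix.mul_apply, Fin.sum_univ_four,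
        E12] using h2
    have h4 : (((m + 1) * (m + 1) : ℕ) : K) • (x ^ m * y ^ m) = 0 := by
      rw [Nat.cast_smul_eq_nsmul]; exact h3
    rcases smul_eq_zero.mp h4 with h5 | h5
    · apply hn
      push_cast at h5
      rcases mul_eq_zero.mp h5 with h6 | h6
      · rw [Nat.succ_eq_add_one]; push_cast; exact h6
      · rw [Nat.succ_eq_add_one]; push_cast; exact h6
    · exact h.ne h5

theorem exists_model (K : Type) [Field K] (n : ℕ) (hn : 1 ≤ n)
    (hK : ∀ m : ℕ, 1 ≤ m → m < n → (m : K) ≠ 0) :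
    ∃ (R : Type) (_ : Ring R) (_ : Algebra K R) (x y : R), Model K n R x y := by
  induction n, hn using Nat.le_induction with
  | base =>
    refine ⟨K, inferInstance, inferInstance, 0, 0, ?_, ?_, ?_, ?_⟩
    · simp
    · simp
    · intro a b c; simp
    · simp
  | succ n hn ih =>
    obtain ⟨R, i1, i2, x, y, h⟩ := ih (fun m h1 h2 => hK m h1 (by omega))
    exact ⟨_, _, _, _, _, step (hK n hn (by omega)) h⟩

/-- The monomial `X^(n-1) Y^(n-1)` is not in the ideal `I`. -/
theorem not_mem (K : Type) [Field K] (n : ℕ) (hn : 1 ≤ n)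
    (hK : ∀ m : ℕ, 1 ≤ m → m < n → (m : K) ≠ 0) :
    gX K ^ (n - 1) * gY K ^ (n - 1) ∉ I K n := by
  obtain ⟨R, i1, i2, x, y, h⟩ := exists_model K n hn hK
  set F : FreeAlgebra K (Fin 2) →ₐ[K] R := FreeAlgebra.lift K ![x, y] with hF
  have hFX : F (gX K) = x := by simp [hF, gX]
  have hFY : F (gY K) = y := by simp [hF, gY]
  have hL : ∀ U, MemL0 K U → ∃ a b c : K, F U = a • x + b • y + c • (x * y - y * x) := by
    intro U hU
    induction hU with
    | genX => exact ⟨1, 0, 0, by rw [hFX]; simp⟩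
    | genY => exact ⟨0, 1, 0, by rw [hFY]; simp⟩
    | add _ _ ih1 ih2 =>
      obtain ⟨a, b, c, e⟩ := ih1
      obtain ⟨a', b', c', e'⟩ := ih2
      refine ⟨a + a', b + b', c + c', ?_⟩
      rw [map_add, e, e', add_smul, add_smul, add_smul]
      abel
    | smul k _ ih =>
      obtain ⟨a, b, c, e⟩ := ih
      refine ⟨k * a, k * b, k * c, ?_⟩
      rw [map_smul, e, smul_add, smul_add, smul_smul, smul_smul, smul_smul]
    | lie _ _ ih1 ih2 =>
      obtain ⟨a, b, c, e⟩ := ih1
      obtain ⟨a', b', c', e'⟩ := ih2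
      refine ⟨0, 0, a * b' - b * a', ?_⟩
      rw [map_sub, map_mul, map_mul, e, e']
      have hcx := h.cx
      have hcy := h.cy
      obtain ⟨z, hz⟩ : ∃ z, z = x * y - y * x := ⟨_, rfl⟩
      rw [← hz] at hcx hcy
      rw [← hz]
      simp only [add_mul, mul_add, smul_mul_smul_comm, ← hcx, ← hcy, zero_smul, zero_add]
      rw [hz]
      module
  have hI : ∀ a ∈ I K n, F a = 0 := by
    intro a ha
    have : I K n ≤ TwoSidedIdeal.ker F := by
      rw [I, TwoSidedIdeal.span_le]
      rintro _ ⟨U, hU, rfl⟩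
      obtain ⟨a, b, c, e⟩ := hL U hU
      show _ ∈ TwoSidedIdeal.ker F
      rw [TwoSidedIdeal.mem_ker, map_pow, e, h.pow]
    exact (TwoSidedIdeal.mem_ker _).mp (this ha)
  intro hmem
  have := hI _ hmem
  rw [map_mul, map_pow, map_pow, hFX, hFY] at this
  exact h.ne this

/-- Negative answer to Q1 of MP_776ebc_al for every `n ≥ 3` (also `n = 2`) and every admissible
field: over `ℚ`, and over `ℤ/p` with `2p > 3n`, the product of the `2n-2` elements
`X, …, X, Y, …, Y` is not in `I`, i.e. the `(2n-2)`-nd power of `K⟨X,Y⟩⁺ / I` is not zero. -/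
theorem result :
    (∀ n : ℕ, 2 ≤ n → gX ℚ ^ (n - 1) * gY ℚ ^ (n - 1) ∉ I ℚ n) ∧
    (∀ (p : ℕ) [Fact p.Prime] (n : ℕ), 2 ≤ n → 3 * n < 2 * p →
      gX (ZMod p) ^ (n - 1) * gY (ZMod p) ^ (n - 1) ∉ I (ZMod p) n) := by
  constructor
  · intro n hn
    exact not_mem ℚ n (by omega) (fun m h1 _ => by exact_mod_cast (by omega : m ≠ 0))
  · intro p hp n hn hpn
    refine not_mem (ZMod p) n (by omega) (fun m h1 h2 h3 => ?_)
    rw [ZMod.natCast_eq_zero_iff] at h3
    have := Nat.le_of_dvd (by omega) h3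
    omega

end Pool.Agent.Results.MP_776ebc_al.NeverNilpotent
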